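import Pool.Agent.W699.KCM.EFFTc
import Pool.Agent.W372.KU.GLF

/-!
Project KCM (helper516), part EFFT: the first fundamental theorem for the unitary Lie algebra over
a field with an involution, for forms over the base field.
-/

set_option autoImplicit false
set_option linter.unusedSectionVars false

namespace Pool.Agent.W699.KCM

open Module TensorProduct Pool.Agent.H204R3.SP Pool.Agent.H204R3.GP Pool.Agent.W516.DR
  Pool.Agent.W516.K3 Pool.Agent.W516.KU
open Pool.Agent.W249.KU (pm pm_apply)

noncomputable section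

/-- the sum over representatives of the orbits of an involution without fixed points -/
lemma sum_inv {X M : Type} [Fintype X] [AddCommMonoid M] (s : X → X) (hs : ∀ x, s (s x) = x)
    (P : X → Prop) [DecidablePred P] (hP : ∀ x, P (s x) ↔ ¬ P x) (f : X → M) :
    ∑ x, f x = ∑ j : {x // P x}, (f j.1 + f (s j.1)) := by
  classical
  let e : X ≃ X := ⟨s, s, hs, hs⟩
  have h1 : ∑ x, f x = ∑ x, (if P x then f x else 0) + ∑ x, (if ¬ P x then f x else 0) := by
    rw [← Finset.sum_add_distrib]
    refine Finset.sum_congr rfl fun x _ => ?_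
    by_cases h : P x
    · rw [if_pos h, if_neg (not_not.2 h), add_zero]
    · rw [if_neg h, if_pos h, zero_add]
  have h2 : ∑ x, (if ¬ P x then f x else 0) = ∑ x, (if P x then f (s x) else 0) := by
    rw [← Equiv.sum_comp e]
    refine Finset.sum_congr rfl fun x _ => ?_
    have h3 : (¬ P (e x)) ↔ P x := by
      change (¬ P (s x)) ↔ P x
      rw [hP, not_not]
    by_cases h : P x
    · rw [if_pos h, if_pos (h3.2 h)]
      rfl
    · rw [if_neg h, if_neg (fun h' => h (h3.1 h'))]
  rw [h1, h2, ← Finset.sum_add_distrib]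
  have h4 : ∀ x, ((if P x then f x else 0) + if P x then f (s x) else 0) =
      if P x then f x + f (s x) else 0 := by
    intro x
    split_ifs <;> simp
  simp only [h4]
  rw [← Finset.sum_filter]
  exact (Finset.sum_subtype (Finset.univ.filter P) (by simp) (fun x => f x + f (s x)))

theorem T_EFFT : Pool.Agent.W516.KCM.S_EFFT := by
  classical
  intro k E T _ _ _ _ _ _ _ _ _ _ _ ι b hι hne hsym hnd hadj κ _ _ φ hφ
  let bs := Module.finBasis k T
  let b' : ℂ ⊗[k] T →ₗ[ℂ] ℂ ⊗[k] T →ₗ[ℂ] ℂ := LinearMap.BilinForm.baseChange ℂ b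
  have hbb : ∀ u v : T, b' ((1 : ℂ) ⊗ₜ[k] u) ((1 : ℂ) ⊗ₜ[k] v) = algebraMap k ℂ (b u v) := by
    intro u v
    have h := LinearMap.BilinForm.baseChange_tmul (A := ℂ) b (1 : ℂ) u 1 v
    rw [show b' = LinearMap.BilinForm.baseChange ℂ b from rfl, h, mul_one,
      Algebra.algebraMap_eq_smul_one]
  let A : E →ₐ[k] Module.End ℂ (ℂ ⊗[k] T) :=
    (Module.End.baseChangeHom k ℂ T).comp (Algebra.lsmul k k T)
  have hA : ∀ e, A e = (Algebra.lsmul k k T e : Module.End k T).baseChange ℂ := fun e => rfl
  have hnd' : ∀ u, (∀ v, b' u v = 0) → u = 0 := fun u hu => nondeg_ext b b' hbb hnd u hu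
  have hsym' : ∀ u v, b' u v = b' v u := by
    have h1 : b' = b'.flip := by
      apply bilin_ext
      intro u v
      rw [LinearMap.flip_apply, hbb, hbb, hsym]
    intro u v
    exact LinearMap.congr_fun (LinearMap.congr_fun h1 u) v
  have hadj' : ∀ a u v, b' (A a u) v = b' u (A (ι a) v) := by
    intro a
    have h1 : b' ∘ₗ A a = b'.compl₂ (A (ι a)) := by
      apply bilin_ext
      intro u v
      rw [LinearMap.comp_apply, LinearMap.compl₂_apply, hA, hA, LinearMap.baseChange_tmul,
        LinearMap.baseChange_tmul, hbb, hbb]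
      congr 1
      exact hadj a u v
    intro u v
    exact LinearMap.congr_fun (LinearMap.congr_fun h1 u) v
  -- the embeddings
  let s : (E →ₐ[k] ℂ) → (E →ₐ[k] ℂ) := fun τ => τ.comp ι
  have hs : ∀ τ, s (s τ) = τ := by
    intro τ
    apply AlgHom.ext
    intro a
    change τ (ι (ι a)) = τ a
    rw [hι]
  have hsne : ∀ τ, s τ ≠ τ := by
    intro τ h
    obtain ⟨e, he⟩ := hne
    apply he
    apply τ.injective
    exact AlgHom.congr_fun h e
  let enc := Fintype.equivFin (E →ₐ[k] ℂ)
  let Pr : (E →ₐ[k] ℂ) → Prop := fun τ => enc τ < enc (s τ)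
  have hPr : ∀ τ, Pr (s τ) ↔ ¬ Pr τ := by
    intro τ
    change enc (s τ) < enc (s (s τ)) ↔ ¬ enc τ < enc (s τ)
    rw [hs, not_lt]
    constructor
    · exact fun h => h.le
    · intro h
      exact lt_of_le_of_ne h (fun e => hsne τ (enc.injective e))
  let J := {τ : E →ₐ[k] ℂ // Pr τ}
  let p : J → Module.End ℂ (ℂ ⊗[k] T) := fun j => idp A j.1
  let q : J → Module.End ℂ (ℂ ⊗[k] T) := fun j => idp A (s j.1)
  have hne1 : ∀ i j : J, i.1 ≠ s j.1 := by
    intro i j h
    have h1 := (hPr j.1).1 (h ▸ i.2)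
    exact h1 j.2
  have hPQ : PQs b' p q := by
    refine ⟨?_, ?_, ?_, ?_, ?_, hsym'⟩
    · intro i j v
      change idp A i.1 (idp A j.1 v) = if i = j then idp A i.1 v else 0
      rw [idp_idem]
      by_cases h : i = j
      · rw [if_pos h, if_pos (congrArg Subtype.val h)]
      · rw [if_neg h, if_neg (fun h' => h (Subtype.ext h'))]
    · intro i j v
      change idp A (s i.1) (idp A (s j.1) v) = if i = j then idp A (s i.1) v else 0
      rw [idp_idem]
      by_cases h : i = j
      · rw [if_pos h, if_pos (by rw [h])]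
      · rw [if_neg h, if_neg (fun h' => h (Subtype.ext (by
          have := congrArg s h'
          rwa [hs, hs] at this)))]
    · intro i j v
      exact idp_orth A (hne1 i j) v
    · intro i j v
      exact idp_orth A (hne1 j i).symm v
    · intro i u v
      exact idp_adj hι hadj' i.1 u v
  have hone : ∀ v, ∑ j, (p j v + q j v) = v := by
    intro v
    conv_rhs => rw [← idp_sum A v, sum_inv s hs Pr hPr]
  -- the extension of the form is invariant
  have hkill : ∀ Y : Module.End ℂ (ℂ ⊗[k] T), Adm b' p Y →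
      KillsM Y (bcm (Ω := ℂ) bs φ) := by
    intro Y hY
    have hc : ∀ a, Y * A a = A a * Y := by
      intro a
      have hτ : ∀ (τ : E →ₐ[k] ℂ) v, Y (idp A τ v) = idp A τ (Y v) := by
        intro τ v
        by_cases h : Pr τ
        · exact hY.comm ⟨τ, h⟩ v
        · have h1 : Pr (s τ) := (hPr τ).2 h
          have h2 := hY.comm' hPQ hnd' ⟨s τ, h1⟩ v
          change Y (idp A (s (s τ)) v) = idp A (s (s τ)) (Y v) at h2
          rwa [hs] at h2
      refine LinearMap.ext fun v => ?_
      change Y (A a v) = A a (Y v)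
      rw [A_eq A a v, A_eq A a (Y v), map_sum]
      refine Finset.sum_congr rfl fun τ _ => ?_
      rw [map_smul, hτ]
    refine (kills_bcm_iff bs φ Y).2 fun lam => ?_
    have hcl : ∀ a : E, ∀ t, cmpE lam Y (a • t) = a • cmpE lam Y t := by
      intro a t
      have h1 := comm_cmp (P := (Algebra.lsmul k k T a : Module.End k T)) (hc a) lam
      exact LinearMap.congr_fun h1 t
    let x : T →ₗ[E] T :=
      { toFun := cmpE lam Y
        map_add' := map_add _
        map_smul' := hcl }
    have hx : x.restrictScalars k = cmpE lam Y := rfl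
    rw [← hx]
    refine hφ x ?_
    intro u v
    change b (cmpE lam Y u) v + b u (cmpE lam Y v) = 0
    rw [cmpE_apply, cmpE_apply, ← lam_omega b b' hbb, ← lam_omega' b b' hbb, ← map_add, hY.skew,
      map_zero]
  have hmain := all_places Pool.Agent.W372.KU.T_GLF hPQ hnd' hone (bcm (Ω := ℂ) bs φ) hkill
  -- descent
  let Bk : E → (T →ₗ[k] T →ₗ[k] k) := fun e : E => b ∘ₗ (Algebra.lsmul k k T e : Module.End k T)
  have key : ∀ ψ ∈ Submodule.span ℂ {ψ : MultilinearMap ℂ (fun _ : κ => ℂ ⊗[k] T) ℂ |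
      PairProdB (fun j : J => b' ∘ₗ p j) ψ}, ∀ lam : ℂ →ₗ[k] k,
      ∃ χ ∈ Submodule.span k {ψ : MultilinearMap k (fun _ : κ => T) k |
        PairProdB Bk ψ}, ∀ v : κ → T, χ v = lam (ψ (fun l => (1 : ℂ) ⊗ₜ[k] v l)) := by
    intro ψ hψ
    induction hψ using Submodule.span_induction with
    | mem ψ h =>
      obtain ⟨m, e, r, h⟩ := h
      intro lam
      let I := Fin (finrank k E)
      refine ⟨∑ g : Fin m → I, lam (∏ l, (r l).1 (db k E (g l))) •
        pm (fun l => Bk (eb k E (g l))) e,
        Submodule.sum_mem _ fun g _ => Submodule.smul_mem _ _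
          (Submodule.subset_span (pm_mem' Bk (fun l => eb k E (g l)) e)), fun v => ?_⟩
      have h1 : ∀ (j : J) (u w : T), b' (p j ((1 : ℂ) ⊗ₜ[k] u)) ((1 : ℂ) ⊗ₜ[k] w) =
          ∑ i : I, j.1 (db k E i) * algebraMap k ℂ (Bk (eb k E i) u w) := by
        intro j u w
        change b' (idp A j.1 ((1 : ℂ) ⊗ₜ[k] u)) ((1 : ℂ) ⊗ₜ[k] w) = _
        rw [idp_apply, map_sum, LinearMap.sum_apply]
        refine Finset.sum_congr rfl fun i _ => ?_
        rw [map_smul, LinearMap.smul_apply, hA, LinearMap.baseChange_tmul, hbb, smul_eq_mul]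
        rfl
      rw [h]
      simp only [LinearMap.comp_apply, h1]
      rw [Finset.prod_univ_sum, map_sum, sum_apply]
      refine Finset.sum_congr (by simp) fun g _ => ?_
      rw [Finset.prod_mul_distrib, ← map_prod, smul_apply, pm_apply, smul_eq_mul, mul_comm _
        (algebraMap k ℂ _), ← Algebra.smul_def, map_smul, smul_eq_mul, mul_comm]
    | zero => exact fun lam => ⟨0, Submodule.zero_mem _, fun v => (map_zero lam).symm⟩
    | add x y _ _ hx hy =>
      intro lam
      obtain ⟨χ, h1, h2⟩ := hx lam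
      obtain ⟨χ', h1', h2'⟩ := hy lam
      exact ⟨χ + χ', Submodule.add_mem _ h1 h1', fun v => by
        rw [add_apply, h2, h2', add_apply, map_add]⟩
    | smul a x _ hx =>
      intro lam
      obtain ⟨χ, h1, h2⟩ := hx (lam ∘ₗ LinearMap.mulLeft k a)
      exact ⟨χ, h1, fun v => by
        rw [h2, smul_apply]; rfl⟩
  obtain ⟨π, hπ⟩ := LinearMap.exists_leftInverse_of_injective
    ((Algebra.linearMap k ℂ)) (LinearMap.ker_eq_bot.2 (algebraMap k ℂ).injective)
  obtain ⟨χ, h1, h2⟩ := key _ hmain π
  have h3 : χ = φ := by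
    ext v
    rw [h2, bcm_one]
    exact LinearMap.congr_fun hπ (φ v)
  rwa [h3] at h1

end

end Pool.Agent.W699.KCM
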