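import Pool.Agent.W516.KCM.Defs
import Pool.Agent.W249.KU.UFFT

/-!
Project KCM (helper516), part EFFT: several places.
-/

set_option autoImplicit false
set_option linter.unusedSectionVars false

namespace Pool.Agent.W699.KCM

open Module TensorProduct Pool.Agent.W516.K3 Pool.Agent.W516.KU
open Pool.Agent.W249.KU (pm pm_apply pairE pairE_zero pairE_one Be Be_apply ext_b)

noncomputable section

section pm

variable {F T : Type} [Field F] [AddCommGroup T] [Module F T]

/-- products of values of forms of a family are of the required form -/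
lemma pm_mem' {κ J σ : Type} [Fintype J] [DecidableEq J] [Fintype κ]
    (B : σ → (T →ₗ[F] T →ₗ[F] F)) (r : J → σ) (E : J × Fin 2 ≃ κ) :
    PairProdB B (pm (fun l => B (r l)) E) := by
  set e := Fintype.equivFin J with he
  refine ⟨Fintype.card J, (Equiv.prodCongr e.symm (Equiv.refl (Fin 2))).trans E,
    fun l => r (e.symm l), ?_⟩
  intro v
  rw [pm_apply]
  rw [← Equiv.prod_comp e.symm]
  rfl

/-- the product of two products of pairings -/
lemma prod_span {κ σ : Type} [Fintype κ] [DecidableEq κ] (B : σ → (T →ₗ[F] T →ₗ[F] F))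
    (A : Finset κ)
    (α : MultilinearMap F (fun _ : {j // j ∈ A} => T) F)
    (β : MultilinearMap F (fun _ : {j // j ∉ A} => T) F)
    (hα : α ∈ Submodule.span F {ψ | PairProdB B ψ})
    (hβ : β ∈ Submodule.span F {ψ | PairProdB B ψ}) :
    ∃ γ ∈ Submodule.span F {ψ : MultilinearMap F (fun _ : κ => T) F | PairProdB B ψ},
      ∀ v : κ → T, γ v = α (fun j => v j) * β (fun j => v j) := by
  induction hα using Submodule.span_induction with
  | mem α hα =>
    induction hβ using Submodule.span_induction with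
    | mem β hβ =>
      obtain ⟨m, e, s, h⟩ := hα
      obtain ⟨m', e', s', h'⟩ := hβ
      let E : (Fin m ⊕ Fin m') × Fin 2 ≃ κ :=
        (Equiv.sumProdDistrib (Fin m) (Fin m') (Fin 2)).trans
          ((Equiv.sumCongr e e').trans (Equiv.sumCompl (fun j => j ∈ A)))
      refine ⟨pm (fun l => B (Sum.elim s s' l)) E, Submodule.subset_span (pm_mem' B _ E),
        fun v => ?_⟩
      rw [pm_apply, h, h', Fintype.prod_sum_type]
      rfl
    | zero => exact ⟨0, Submodule.zero_mem _, fun v => by simp⟩
    | add x y _ _ hx hy =>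
      obtain ⟨χ, h1, h2⟩ := hx
      obtain ⟨χ', h1', h2'⟩ := hy
      exact ⟨χ + χ', Submodule.add_mem _ h1 h1', fun v => by
        rw [add_apply, h2, h2', add_apply, mul_add]⟩
    | smul a x _ hx =>
      obtain ⟨χ, h1, h2⟩ := hx
      exact ⟨a • χ, Submodule.smul_mem _ _ h1, fun v => by
        rw [smul_apply, h2, smul_apply, smul_eq_mul, smul_eq_mul]
        ring⟩
  | zero => exact ⟨0, Submodule.zero_mem _, fun v => by simp⟩
  | add x y _ _ hx hy =>
    obtain ⟨χ, h1, h2⟩ := hx
    obtain ⟨χ', h1', h2'⟩ := hy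
    exact ⟨χ + χ', Submodule.add_mem _ h1 h1', fun v => by
      rw [add_apply, h2, h2', add_apply, add_mul]⟩
  | smul a x _ hx =>
    obtain ⟨χ, h1, h2⟩ := hx
    exact ⟨a • χ, Submodule.smul_mem _ _ h1, fun v => by
      rw [smul_apply, h2, smul_apply, smul_eq_mul, smul_eq_mul]
      ring⟩

/-- linear coordinate functions on the span of a set -/
lemma exists_coords {M : Type} [AddCommGroup M] [Module F M] [FiniteDimensional F M]
    (G : Set M) : ∃ (I : Type) (_ : Fintype I) (g : I → M) (s : I → M →ₗ[F] F),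
      (∀ i, g i ∈ G) ∧ ∀ x ∈ Submodule.span F G, x = ∑ i, s i x • g i := by
  obtain ⟨t, htG, hspan, hli⟩ := exists_linearIndependent F G
  have hfin : Finite t := hli.finite
  have : Fintype t := Fintype.ofFinite t
  obtain ⟨π, hπ⟩ := LinearMap.exists_leftInverse_of_injective
    (Finsupp.linearCombination F ((↑) : t → M)) (LinearMap.ker_eq_bot.2 hli)
  refine ⟨t, inferInstance, fun i => i.1, fun i => Finsupp.lapply i ∘ₗ π, fun i => htG i.2, ?_⟩
  intro x hx
  rw [← hspan] at hx
  have hx' : x ∈ LinearMap.range (Finsupp.linearCombination F ((↑) : t → M)) := by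
    rw [Finsupp.range_linearCombination, Subtype.range_coe]
    exact hx
  obtain ⟨y, rfl⟩ := hx'
  have h1 : π (Finsupp.linearCombination F ((↑) : t → M) y) = y := LinearMap.congr_fun hπ y
  simp only [LinearMap.comp_apply, h1, Finsupp.lapply_apply]
  rw [Finsupp.linearCombination_apply, Finsupp.sum_fintype]
  intro i
  exact zero_smul F _

end pm

/-! ### One place -/

/-- a pair of adjoint orthogonal idempotents -/
structure PQ {F T : Type} [Field F] [AddCommGroup T] [Module F T] (b : T →ₗ[F] T →ₗ[F] F)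
    (p q : Module.End F T) : Prop where
  pp : ∀ v, p (p v) = p v
  qq : ∀ v, q (q v) = q v
  pq : ∀ v, p (q v) = 0
  qp : ∀ v, q (p v) = 0
  adj : ∀ u v, b (p u) v = b u (q v)
  symm : ∀ u v, b u v = b v u

section one

variable {F T : Type} [Field F] [CharZero F] [AddCommGroup T] [Module F T] [FiniteDimensional F T]
  {b : T →ₗ[F] T →ₗ[F] F} {p q : Module.End F T}

lemma PQ.adj' (h : PQ b p q) (u v : T) : b (q u) v = b u (p v) := by
  rw [h.symm, ← h.adj, h.symm]

variable (p) in
/-- the projection -/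
def P : T →ₗ[F] LinearMap.range p := p.rangeRestrict

lemma P_coe (v : T) : (P p v : T) = p v := rfl

lemma p_mem (h : PQ b p q) (w : LinearMap.range p) : p (w : T) = w := by
  obtain ⟨v, hv⟩ := w.2
  rw [← hv, h.pp]

lemma q_mem (h : PQ b p q) (w : LinearMap.range p) : q (w : T) = 0 := by
  obtain ⟨v, hv⟩ := w.2
  rw [← hv, h.qp]

lemma P_mem (h : PQ b p q) (w : LinearMap.range p) : P p (w : T) = w :=
  Subtype.ext (p_mem h w)

lemma P_zero {v : T} (hv : p v = 0) : P p v = 0 := Subtype.ext hv

variable (b p) in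
/-- the restriction of `b t` to the range of `p` -/
def rho : T →ₗ[F] Module.Dual F (LinearMap.range p) :=
  (LinearMap.range p).subtype.dualMap ∘ₗ b

lemma rho_apply (t : T) (w : LinearMap.range p) : rho b p t w = b t w := rfl

lemma rho_mem (h : PQ b p q) (w : LinearMap.range p) : rho b p (w : T) = 0 := by
  ext w'
  rw [rho_apply, ← p_mem h w, h.adj, q_mem h, map_zero]
  rfl

variable (hnd : ∀ u, (∀ v, b u v = 0) → u = 0)

variable (b p) in
/-- the embedding of the dual of the range of `p` -/
def theta : Module.Dual F (LinearMap.range p) →ₗ[F] T :=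
  (Be b hnd).symm.toLinearMap ∘ₗ (P p).dualMap

lemma b_theta (ξ : Module.Dual F (LinearMap.range p)) (v : T) :
    b (theta b p hnd ξ) v = ξ (P p v) := by
  have h := LinearEquiv.apply_symm_apply (Be b hnd) ((P p).dualMap ξ)
  exact LinearMap.congr_fun h v

lemma theta_rho (h : PQ b p q) (t : T) : theta b p hnd (rho b p t) = q t := by
  refine ext_b b (fun v => ?_) hnd
  rw [b_theta, rho_apply, P_coe, h.adj']

lemma p_theta (h : PQ b p q) (ξ : Module.Dual F (LinearMap.range p)) :
    p (theta b p hnd ξ) = 0 := by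
  apply hnd
  intro v
  rw [h.adj, b_theta, P_zero (h.pq v), map_zero]

lemma P_theta (h : PQ b p q) (ξ : Module.Dual F (LinearMap.range p)) :
    P p (theta b p hnd ξ) = 0 := P_zero (p_theta hnd h ξ)

lemma rho_theta (h : PQ b p q) (ξ : Module.Dual F (LinearMap.range p)) :
    rho b p (theta b p hnd ξ) = ξ := by
  ext w
  rw [rho_apply, b_theta, P_mem h]

/-- the extension of an endomorphism of the range of `p` -/
def XX (x : Module.End F (LinearMap.range p)) : Module.End F T :=
  (LinearMap.range p).subtype ∘ₗ x ∘ₗ P p - theta b p hnd ∘ₗ x.dualMap ∘ₗ rho b p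

lemma XX_apply (x : Module.End F (LinearMap.range p)) (t : T) :
    XX hnd x t = (x (P p t) : T) - theta b p hnd (rho b p t ∘ₗ x) := rfl

lemma XX_skew (h : PQ b p q) (x : Module.End F (LinearMap.range p)) (u v : T) :
    b (XX hnd x u) v + b u (XX hnd x v) = 0 := by
  rw [XX_apply, XX_apply, map_sub, LinearMap.sub_apply, map_sub, b_theta,
    h.symm u (theta b p hnd (rho b p v ∘ₗ x)), b_theta, LinearMap.comp_apply,
    LinearMap.comp_apply, rho_apply, rho_apply, h.symm v _]
  ring

lemma XX_mem (h : PQ b p q) (x : Module.End F (LinearMap.range p)) (w : LinearMap.range p) :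
    XX hnd x (w : T) = (x w : T) := by
  rw [XX_apply, P_mem h, rho_mem h, LinearMap.zero_comp, map_zero, sub_zero]

lemma XX_theta (h : PQ b p q) (x : Module.End F (LinearMap.range p))
    (ξ : Module.Dual F (LinearMap.range p)) :
    XX hnd x (theta b p hnd ξ) = -theta b p hnd (ξ ∘ₗ x) := by
  rw [XX_apply, P_theta hnd h, rho_theta hnd h, map_zero, Submodule.coe_zero, zero_sub]

lemma XX_comm (h : PQ b p q) (x : Module.End F (LinearMap.range p)) (t : T) :
    XX hnd x (p t) = p (XX hnd x t) := by
  have h1 : XX hnd x (p t) = (x (P p t) : T) := XX_mem hnd h x (P p t)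
  rw [h1, XX_apply, map_sub, p_theta hnd h, sub_zero, p_mem h]

lemma XX_id (h : PQ b p q) (x : Module.End F (LinearMap.range p)) (t : T) :
    XX hnd x (p t + q t) = XX hnd x t := by
  have h1 : XX hnd x (p t) = (x (P p t) : T) := XX_mem hnd h x (P p t)
  rw [map_add, h1, ← theta_rho hnd h, XX_theta hnd h, XX_apply, sub_eq_add_neg]

variable {κ : Type} [Fintype κ] [DecidableEq κ] (φ : MultilinearMap F (fun _ : κ => T) F)

/-- the component of the form -/
def Psi (s : Finset κ) : MultilinearMap F (fun _ : {j // j ∈ s} => LinearMap.range p)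
    (MultilinearMap F (fun _ : {j // j ∉ s} => Module.Dual F (LinearMap.range p)) F) :=
  (MultilinearMap.compLinearMapₗ (R := F) (M₂ := F)
    (fun _ : {j // j ∉ s} => theta b p hnd)).compMultilinearMap
    ((MultilinearMap.currySum (N := fun _ => T)
      (φ.domDomCongr (Equiv.sumCompl (fun j => j ∈ s)).symm)).compLinearMap
      (fun _ : {j // j ∈ s} => (LinearMap.range p).subtype))

lemma Psi_apply (s : Finset κ) (w : {j // j ∈ s} → LinearMap.range p)
    (ξ : {j // j ∉ s} → Module.Dual F (LinearMap.range p)) :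
    Psi hnd φ s w ξ = φ ((Sum.elim (fun j => (w j : T))
      (fun l => theta b p hnd (ξ l))) ∘ (Equiv.sumCompl (fun j => j ∈ s)).symm) := rfl

/-- killing a form, in terms of the two groups of variables -/
lemma kills_sum (s : Finset κ) {x : Module.End F T} (hx : KillsM x φ)
    (A : {j // j ∈ s} ⊕ {j // j ∉ s} → T) :
    ∑ j, φ ((Function.update A (Sum.inl j) (x (A (Sum.inl j)))) ∘
        (Equiv.sumCompl (fun j => j ∈ s)).symm) +
      ∑ j, φ ((Function.update A (Sum.inr j) (x (A (Sum.inr j)))) ∘
        (Equiv.sumCompl (fun j => j ∈ s)).symm) = 0 := by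
  set e := Equiv.sumCompl (fun j => j ∈ s) with he
  have h := hx (A ∘ e.symm)
  rw [← Equiv.sum_comp e, Fintype.sum_sum_type] at h
  have h1 : ∀ (a : {j // j ∈ s} ⊕ {j // j ∉ s}) (z : T),
      Function.update (A ∘ e.symm) (e a) z = (Function.update A a z) ∘ e.symm := by
    intro a z
    rw [Function.update_comp_equiv, Equiv.symm_symm]
  simp only [h1, Function.comp_apply, Equiv.symm_apply_apply] at h
  exact h

lemma Psi_inv (h : PQ b p q) (s : Finset κ) (x : Module.End F (LinearMap.range p))
    (hx : KillsM (XX hnd x) φ) (w : {j // j ∈ s} → LinearMap.range p)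
    (ξ : {j // j ∉ s} → Module.Dual F (LinearMap.range p)) :
    ∑ j, Psi hnd φ s (Function.update w j (x (w j))) ξ -
      ∑ l, Psi hnd φ s w (Function.update ξ l ((ξ l) ∘ₗ x)) = 0 := by
  set e := Equiv.sumCompl (fun j => j ∈ s) with he
  set A : {j // j ∈ s} ⊕ {j // j ∉ s} → T := Sum.elim (fun j => (w j : T))
      (fun l => theta b p hnd (ξ l)) with hA
  have hk := kills_sum φ s hx A
  rw [← hk, sub_eq_add_neg]
  congr 1
  · refine Finset.sum_congr rfl fun j _ => ?_
    rw [Psi_apply, hA, Sum.update_elim_inl, Sum.elim_inl, XX_mem hnd h]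
    congr 3
    funext j'
    by_cases hj : j' = j
    · subst hj
      rw [Function.update_self, Function.update_self]
    · rw [Function.update_of_ne hj, Function.update_of_ne hj]
  · rw [← Finset.sum_neg_distrib]
    refine Finset.sum_congr rfl fun l _ => ?_
    rw [hA, Sum.update_elim_inr, Sum.elim_inr, XX_theta hnd h]
    have h1 : ∀ (a : {j // j ∈ s} ⊕ {j // j ∉ s}) (z : T),
        Function.update (A ∘ e.symm) (e a) z = (Function.update A a z) ∘ e.symm := by
      intro a z
      rw [Function.update_comp_equiv, Equiv.symm_symm]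
    have h2 : (Sum.elim (fun j => (w j : T)) (Function.update
        (fun l => theta b p hnd (ξ l)) l (-theta b p hnd ((ξ l) ∘ₗ x)))) ∘ e.symm =
        Function.update (A ∘ e.symm) (e (Sum.inr l)) (-theta b p hnd ((ξ l) ∘ₗ x)) := by
      rw [h1, hA, Sum.update_elim_inr]
    rw [h2, ← neg_one_smul F (theta b p hnd ((ξ l) ∘ₗ x)), MultilinearMap.map_update_smul,
      neg_one_smul, h1, hA, Sum.update_elim_inr, Psi_apply]
    congr 4
    funext j'
    by_cases hj : j' = l
    · subst hj
      rw [Function.update_self, Function.update_self]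
    · rw [Function.update_of_ne hj, Function.update_of_ne hj]

lemma span_case {σ : Type} (B : σ → (T →ₗ[F] T →ₗ[F] F)) (i : σ) (hB : B i = b ∘ₗ p)
    (h : PQ b p q) (s : Finset κ)
    (Ψ : MultilinearMap F (fun _ : {j // j ∈ s} => LinearMap.range p)
      (MultilinearMap F (fun _ : {j // j ∉ s} => Module.Dual F (LinearMap.range p)) F))
    (hΨ : Ψ ∈ Submodule.span F {ψ : MultilinearMap F (fun _ : {j // j ∈ s} => LinearMap.range p)
      (MultilinearMap F (fun _ : {j // j ∉ s} => Module.Dual F (LinearMap.range p)) F) |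
        ∃ e : {j // j ∈ s} ≃ {j // j ∉ s}, ∀ v w, ψ v w = ∏ j, w (e j) (v j)}) :
    ∃ χ ∈ Submodule.span F {ψ | PairProdB B ψ},
      ∀ v : κ → T, χ v = Ψ (fun j => P p (v j)) (fun l => rho b p (v l)) := by
  induction hΨ using Submodule.span_induction with
  | mem ψ h' =>
    obtain ⟨e, he⟩ := h'
    refine ⟨_, Submodule.subset_span (pm_mem' B (fun _ : {j // j ∈ s} => i) (pairE e)),
      fun v => ?_⟩
    rw [pm_apply, he]
    refine Finset.prod_congr rfl fun j _ => ?_
    rw [pairE_zero, pairE_one, rho_apply, P_coe, h.symm (v (e j)) _, hB]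
    rfl
  | zero => exact ⟨0, Submodule.zero_mem _, fun v => rfl⟩
  | add x y _ _ hx hy =>
    obtain ⟨χ, h1, h2⟩ := hx
    obtain ⟨χ', h1', h2'⟩ := hy
    exact ⟨χ + χ', Submodule.add_mem _ h1 h1', fun v => by
      rw [add_apply, h2, h2']; rfl⟩
  | smul a x _ hx =>
    obtain ⟨χ, h1, h2⟩ := hx
    exact ⟨a • χ, Submodule.smul_mem _ _ h1, fun v => by
      rw [smul_apply, h2]; rfl⟩

include hnd in
theorem one_place (H : S_GLF) {σ : Type} (B : σ → (T →ₗ[F] T →ₗ[F] F)) (i : σ)
    (hB : B i = b ∘ₗ p) (h : PQ b p q)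
    (hφ : ∀ x : Module.End F T, (∀ u v, b (x u) v + b u (x v) = 0) →
      (∀ t, x (p t) = p (x t)) → (∀ t, x (p t + q t) = x t) → KillsM x φ)
    (hφ' : ∀ v, φ (fun j => p (v j) + q (v j)) = φ v) :
    φ ∈ Submodule.span F {ψ | PairProdB B ψ} := by
  have h1 : ∀ s : Finset κ, ∃ χ ∈ Submodule.span F {ψ | PairProdB B ψ},
      ∀ v : κ → T, χ v = φ (s.piecewise (fun j => p (v j)) (fun j => q (v j))) := by
    intro s
    have h2 := H F (LinearMap.range p) {j // j ∈ s} {j // j ∉ s} (Psi hnd φ s)
      (fun x v w => Psi_inv hnd φ h s x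
        (hφ _ (XX_skew hnd h x) (XX_comm hnd h x) (XX_id hnd h x)) v w)
    obtain ⟨χ, h3, h4⟩ := span_case B i hB h s _ h2
    refine ⟨χ, h3, fun v => ?_⟩
    rw [h4, Psi_apply]
    congr 1
    funext j
    by_cases hj : j ∈ s
    · rw [Finset.piecewise_eq_of_mem _ _ _ hj, Function.comp_apply,
        Equiv.sumCompl_symm_apply_of_pos hj, Sum.elim_inl, P_coe]
    · rw [Finset.piecewise_eq_of_notMem _ _ _ hj, Function.comp_apply,
        Equiv.sumCompl_symm_apply_of_neg hj, Sum.elim_inr, theta_rho hnd h]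
  choose χ h3 h4 using h1
  have h5 : φ = ∑ s, χ s := by
    ext v
    rw [sum_apply]
    have h6 : φ v = φ ((fun j => p (v j)) + (fun j => q (v j))) := (hφ' v).symm
    rw [h6, MultilinearMap.map_add_univ]
    exact Finset.sum_congr rfl fun s _ => (h4 s v).symm
  rw [h5]
  exact Submodule.sum_mem _ fun s _ => h3 s

end one

end

end Pool.Agent.W699.KCM
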