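import Pool.Agent.W699.KCM.EFFTa

/-!
Project KCM (helper516), part EFFT: several places, the induction.
-/

set_option autoImplicit false
set_option linter.unusedSectionVars false

namespace Pool.Agent.W699.KCM

open Module TensorProduct Pool.Agent.W516.K3 Pool.Agent.W516.KU
open Pool.Agent.W249.KU (pm pm_apply)

noncomputable section

/-- families of adjoint orthogonal idempotents -/
structure PQs {F T J : Type} [Field F] [AddCommGroup T] [Module F T] [DecidableEq J]
    (b : T →ₗ[F] T →ₗ[F] F) (p q : J → Module.End F T) : Prop where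
  pp : ∀ i j v, p i (p j v) = if i = j then p i v else 0
  qq : ∀ i j v, q i (q j v) = if i = j then q i v else 0
  pq : ∀ i j v, p i (q j v) = 0
  qp : ∀ i j v, q i (p j v) = 0
  adj : ∀ i u v, b (p i u) v = b u (q i v)
  symm : ∀ u v, b u v = b v u

section

variable {F T J : Type} [Field F] [CharZero F] [AddCommGroup T] [Module F T]
  [FiniteDimensional F T] [DecidableEq J]
  {b : T →ₗ[F] T →ₗ[F] F} {p q : J → Module.End F T}

lemma PQs.one (h : PQs b p q) (i : J) : PQ b (p i) (q i) where
  pp v := by rw [h.pp, if_pos rfl]
  qq v := by rw [h.qq, if_pos rfl]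
  pq v := h.pq i i v
  qp v := h.qp i i v
  adj := h.adj i
  symm := h.symm

variable (p q) in
/-- the projection for a set of places -/
def PS (S : Finset J) : Module.End F T := ∑ i ∈ S, (p i + q i)

lemma PS_apply (S : Finset J) (v : T) : PS p q S v = ∑ i ∈ S, (p i v + q i v) := by
  unfold PS
  rw [LinearMap.sum_apply]
  rfl

lemma PS_insert {S : Finset J} {i : J} (hi : i ∉ S) (v : T) :
    PS p q (insert i S) v = PS p q S v + (p i v + q i v) := by
  rw [PS_apply, PS_apply, Finset.sum_insert hi, add_comm]

/-- `Q i PS = 0` -/
lemma Q_PS (h : PQs b p q) {S : Finset J} {i : J} (hi : i ∉ S) (v : T) :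
    p i (PS p q S v) + q i (PS p q S v) = 0 := by
  rw [PS_apply, map_sum, map_sum, ← Finset.sum_add_distrib]
  refine Finset.sum_eq_zero fun j hj => ?_
  have hne : i ≠ j := fun e => hi (e ▸ hj)
  rw [map_add, map_add, h.pp, h.pq, h.qp, h.qq, if_neg hne, if_neg hne]
  simp

/-- `PS Q i = 0` -/
lemma PS_Q (h : PQs b p q) {S : Finset J} {i : J} (hi : i ∉ S) (v : T) :
    PS p q S (p i v + q i v) = 0 := by
  rw [PS_apply]
  refine Finset.sum_eq_zero fun j hj => ?_
  have hne : j ≠ i := fun e => hi (e ▸ hj)
  rw [map_add, map_add, h.pp, h.pq, h.qp, h.qq, if_neg hne, if_neg hne]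
  simp

lemma Q_Q (h : PQs b p q) (i : J) (v : T) :
    p i (p i v + q i v) + q i (p i v + q i v) = p i v + q i v := by
  rw [map_add, map_add, h.pp, h.pq, h.qp, h.qq, if_pos rfl, if_pos rfl]
  simp

lemma PS_PS (h : PQs b p q) (S : Finset J) (v : T) : PS p q S (PS p q S v) = PS p q S v := by
  have e : ∀ i ∈ S, p i (PS p q S v) + q i (PS p q S v) = p i v + q i v := by
    intro i hi
    rw [PS_apply, map_sum, map_sum, ← Finset.sum_add_distrib]
    rw [Finset.sum_eq_single_of_mem i hi]
    · exact Q_Q h i v
    · intro j _ hj
      rw [map_add, map_add, h.pp, h.pq, h.qp, h.qq, if_neg hj.symm, if_neg hj.symm]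
      simp
  rw [PS_apply S (PS p q S v), Finset.sum_congr rfl e, ← PS_apply]

/-- the admissible endomorphisms -/
structure Adm (b : T →ₗ[F] T →ₗ[F] F) (p : J → Module.End F T) (x : Module.End F T) : Prop where
  skew : ∀ u v, b (x u) v + b u (x v) = 0
  comm : ∀ j t, x (p j t) = p j (x t)

/-- an admissible endomorphism commutes with the adjoints -/
lemma Adm.comm' (h : PQs b p q) (hnd : ∀ u, (∀ v, b u v = 0) → u = 0) {x : Module.End F T}
    (hx : Adm b p x) (j : J) (t : T) : x (q j t) = q j (x t) := by
  refine Pool.Agent.W249.KU.ext_b b (fun v => ?_) hnd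
  have h1 := hx.skew (q j t) v
  have h2 := hx.skew t (p j v)
  have hadj := (h.one j).adj'
  rw [hadj t (x v), ← hx.comm] at h1
  rw [hadj (x t) v]
  linear_combination h1 - h2

/-- endomorphisms of one place are admissible -/
lemma adm_one (h : PQs b p q) (hnd : ∀ u, (∀ v, b u v = 0) → u = 0) {x : Module.End F T} (i : J)
    (hs : ∀ u v, b (x u) v + b u (x v) = 0) (hc : ∀ t, x (p i t) = p i (x t))
    (hid : ∀ t, x (p i t + q i t) = x t) : Adm b p x := by
  refine ⟨hs, fun j t => ?_⟩
  by_cases hj : j = i
  · subst hj
    exact hc t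
  · -- `x` commutes with `q i`
    have hcq : ∀ t, x (q i t) = q i (x t) := by
      intro t
      refine Pool.Agent.W249.KU.ext_b b (fun v => ?_) hnd
      have h1 := hs (q i t) v
      have h2 := hs t (p i v)
      have hadj := (h.one i).adj'
      rw [hadj t (x v), ← hc] at h1
      rw [hadj (x t) v]
      linear_combination h1 - h2
    have h1 : x (p j t) = 0 := by
      rw [← hid (p j t), h.pp, h.qp, if_neg (fun e => hj e.symm), add_zero, map_zero]
    have h2 : p j (x t) = 0 := by
      rw [← hid t, map_add, hc, hcq, map_add, h.pp, h.pq, if_neg hj, add_zero]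
    rw [h1, h2]

variable {κ : Type} [Fintype κ] [DecidableEq κ]

/-- the form as a function of the variables in `A` with values in the forms in the others -/
def PhiA (R : Module.End F T) (φ : MultilinearMap F (fun _ : κ => T) F) (A : Finset κ) :
    MultilinearMap F (fun _ : {j // j ∈ A} => T) (MultilinearMap F (fun _ : {j // j ∉ A} => T) F) :=
  (MultilinearMap.compLinearMapₗ (R := F) (M₂ := F)
    (fun _ : {j // j ∉ A} => R)).compMultilinearMap
    (MultilinearMap.currySum (N := fun _ => T)
      (φ.domDomCongr (Equiv.sumCompl (fun j => j ∈ A)).symm))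

lemma PhiA_apply (R : Module.End F T) (φ : MultilinearMap F (fun _ : κ => T) F) (A : Finset κ)
    (u : {j // j ∈ A} → T) (w : {j // j ∉ A} → T) :
    PhiA R φ A u w = φ ((Sum.elim u (fun l => R (w l))) ∘
      (Equiv.sumCompl (fun j => j ∈ A)).symm) := rfl

/-- the sum of the two parts vanishes -/
lemma PhiA_sum (R : Module.End F T) (φ : MultilinearMap F (fun _ : κ => T) F) (A : Finset κ)
    {x : Module.End F T} (hx : KillsM x φ) (hR : ∀ t, x (R t) = R (x t))
    (u : {j // j ∈ A} → T) (w : {j // j ∉ A} → T) :
    ∑ j, PhiA R φ A (Function.update u j (x (u j))) w +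
      ∑ l, PhiA R φ A u (Function.update w l (x (w l))) = 0 := by
  set B : {j // j ∈ A} ⊕ {j // j ∉ A} → T := Sum.elim u (fun l => R (w l)) with hB
  have hk := kills_sum φ A hx B
  rw [← hk]
  congr 1
  · refine Finset.sum_congr rfl fun j _ => ?_
    rw [PhiA_apply, hB, Sum.update_elim_inl, Sum.elim_inl]
  · refine Finset.sum_congr rfl fun l _ => ?_
    rw [PhiA_apply, hB, Sum.update_elim_inr, Sum.elim_inr, hR]
    congr 3
    funext j'
    by_cases hj : j' = l
    · subst hj
      rw [Function.update_self, Function.update_self]
    · rw [Function.update_of_ne hj, Function.update_of_ne hj]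

theorem many_places (H : S_GLF) (h : PQs b p q) (hnd : ∀ u, (∀ v, b u v = 0) → u = 0)
    (S : Finset J) : ∀ (κ : Type) [Fintype κ] [DecidableEq κ]
    (φ : MultilinearMap F (fun _ : κ => T) F),
    (∀ x : Module.End F T, Adm b p x → (∀ t, x (PS p q S t) = x t) → KillsM x φ) →
    φ.compLinearMap (fun _ => PS p q S) ∈
      Submodule.span F {ψ | PairProdB (fun j : J => b ∘ₗ p j) ψ} := by
  induction S using Finset.induction_on with
  | empty =>
    intro κ _ _ φ _
    rcases isEmpty_or_nonempty κ with hκ | ⟨⟨j⟩⟩
    · have e : φ.compLinearMap (fun _ => PS p q ∅) = (φ (fun _ => 0)) •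
          pm (F := F) (T := T) (J := Fin 0) (fun _ => 0)
            (Equiv.equivOfIsEmpty (Fin 0 × Fin 2) κ) := by
        ext v
        rw [MultilinearMap.compLinearMap_apply, smul_apply, pm_apply]
        simp only [Finset.univ_eq_empty, Finset.prod_empty, smul_eq_mul, mul_one]
        congr 1
      rw [e]
      refine Submodule.smul_mem _ _ (Submodule.subset_span ?_)
      exact ⟨0, Equiv.equivOfIsEmpty (Fin 0 × Fin 2) κ, fun l => l.elim0, fun v => by
        rw [pm_apply]
        simp⟩
    · have e : φ.compLinearMap (fun _ => PS p q ∅) = 0 := by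
        ext v
        rw [MultilinearMap.compLinearMap_apply]
        apply φ.map_coord_zero j
        rw [PS_apply, Finset.sum_empty]
      rw [e]
      exact Submodule.zero_mem _
  | insert i S hi IH =>
    intro κ _ _ φ hφ
    set R : Module.End F T := p i + q i with hR
    have hRa : ∀ t, R t = p i t + q i t := fun t => rfl
    have hxR : ∀ x : Module.End F T, Adm b p x → ∀ t, x (R t) = R (x t) := by
      intro x hx t
      rw [hRa, hRa, map_add, hx.comm, hx.comm' h hnd]
    -- the part with the variables in `A` at the places of `S`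
    have key : ∀ A : Finset κ, ∃ γ ∈ Submodule.span F
        {ψ : MultilinearMap F (fun _ : κ => T) F | PairProdB (fun j : J => b ∘ₗ p j) ψ},
        ∀ v : κ → T, γ v = φ (A.piecewise (fun j => PS p q S (v j)) (fun j => R (v j))) := by
      intro A
      -- the other variables
      have h1 : ∀ u : {j // j ∈ A} → T, PhiA R φ A (fun j => PS p q S (u j)) ∈
          Submodule.span F {ψ | PairProdB (fun j : J => b ∘ₗ p j) ψ} := by
        intro u
        apply one_place hnd _ H (fun j : J => b ∘ₗ p j) i rfl (h.one i)
        · intro x hs hc hid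
          have hadm := adm_one h hnd i hs hc hid
          have hk : KillsM x φ := by
            apply hφ x hadm
            intro t
            rw [PS_insert hi, map_add, hid]
            have : x (PS p q S t) = 0 := by
              rw [← hid (PS p q S t), Q_PS h hi, map_zero]
            rw [this, zero_add]
          intro w
          have h2 := PhiA_sum R φ A hk (hxR x hadm) (fun j => PS p q S (u j)) w
          rw [← h2]
          have h3 : ∑ j, PhiA R φ A (Function.update (fun j => PS p q S (u j)) j
              (x (PS p q S (u j)))) w = 0 := by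
            refine Finset.sum_eq_zero fun j _ => ?_
            have : x (PS p q S (u j)) = 0 := by
              rw [← hid (PS p q S (u j)), Q_PS h hi, map_zero]
            rw [this, (PhiA R φ A).map_update_zero]
            rfl
          rw [h3, zero_add]
        · intro w
          have e : (fun l => R (p i (w l) + q i (w l))) = fun l => R (w l) := by
            funext l
            rw [hRa, hRa, Q_Q h i]
          rw [PhiA_apply, PhiA_apply, e]
      obtain ⟨I, _, g, s, hg, hs⟩ := exists_coords (F := F)
        {ψ : MultilinearMap F (fun _ : {j // j ∉ A} => T) F |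
          PairProdB (fun j : J => b ∘ₗ p j) ψ}
      -- the coefficients
      have h2 : ∀ n : I, ((s n).compMultilinearMap (PhiA R φ A)).compLinearMap
          (fun _ => PS p q S) ∈ Submodule.span F {ψ | PairProdB (fun j : J => b ∘ₗ p j) ψ} := by
        intro n
        apply IH
        intro x hadm hid u
        have hk : KillsM x φ := by
          apply hφ x hadm
          intro t
          rw [PS_insert hi, map_add, hid]
          have : x (p i t + q i t) = 0 := by
            rw [← hid (p i t + q i t), PS_Q h hi, map_zero]
          rw [this, add_zero]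
        have h3 : ∑ j, PhiA R φ A (Function.update u j (x (u j))) = 0 := by
          ext w
          have h4 := PhiA_sum R φ A hk (hxR x hadm) u w
          have h5 : ∑ l, PhiA R φ A u (Function.update w l (x (w l))) = 0 := by
            refine Finset.sum_eq_zero fun l _ => ?_
            rw [PhiA_apply]
            apply φ.map_coord_zero l.1
            rw [Function.comp_apply, Equiv.sumCompl_symm_apply_of_neg l.2, Sum.elim_inr,
              Function.update_self, ← hxR x hadm, hRa, ← hid, PS_Q h hi, map_zero]
          rw [h5, add_zero] at h4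
          rw [sum_apply, h4]
          rfl
        simp only [LinearMap.compMultilinearMap_apply]
        rw [← map_sum, h3, map_zero]
      -- the sum
      have h3 : ∀ n : I, ∃ γ ∈ Submodule.span F
          {ψ : MultilinearMap F (fun _ : κ => T) F | PairProdB (fun j : J => b ∘ₗ p j) ψ},
          ∀ v : κ → T, γ v = s n (PhiA R φ A (fun j => PS p q S (v j))) *
            g n (fun j => v j) := by
        intro n
        obtain ⟨γ, hγ, hγe⟩ := prod_span _ A _ _ (h2 n) (Submodule.subset_span (hg n))
        exact ⟨γ, hγ, fun v => hγe v⟩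
      choose γ hγ hγe using h3
      refine ⟨∑ n, γ n, Submodule.sum_mem _ fun n _ => hγ n, fun v => ?_⟩
      have h4 := hs _ (h1 (fun j => v j))
      have h5 := congrArg (fun f : MultilinearMap F (fun _ : {j // j ∉ A} => T) F =>
        f (fun j => v j)) h4
      simp only [sum_apply, smul_apply, smul_eq_mul] at h5
      rw [sum_apply, Finset.sum_congr rfl (fun n _ => hγe n v), ← h5, PhiA_apply]
      congr 1
      funext j
      by_cases hj : j ∈ A
      · rw [Finset.piecewise_eq_of_mem _ _ _ hj, Function.comp_apply,
          Equiv.sumCompl_symm_apply_of_pos hj, Sum.elim_inl]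
      · rw [Finset.piecewise_eq_of_notMem _ _ _ hj, Function.comp_apply,
          Equiv.sumCompl_symm_apply_of_neg hj, Sum.elim_inr]
    choose γ hγ hγe using key
    have h5 : φ.compLinearMap (fun _ => PS p q (insert i S)) = ∑ A, γ A := by
      ext v
      rw [sum_apply, MultilinearMap.compLinearMap_apply]
      have h6 : (fun l => PS p q (insert i S) (v l)) =
          (fun j => PS p q S (v j)) + (fun j => R (v j)) := by
        funext l
        rw [PS_insert hi]
        rfl
      rw [h6, MultilinearMap.map_add_univ]
      exact Finset.sum_congr rfl fun A _ => (hγe A v).symm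
    rw [h5]
    exact Submodule.sum_mem _ fun A _ => hγ A

theorem all_places [Fintype J] (H : S_GLF) (h : PQs b p q)
    (hnd : ∀ u, (∀ v, b u v = 0) → u = 0) (hone : ∀ v, ∑ j, (p j v + q j v) = v)
    (φ : MultilinearMap F (fun _ : κ => T) F)
    (hφ : ∀ x : Module.End F T, Adm b p x → KillsM x φ) :
    φ ∈ Submodule.span F {ψ | PairProdB (fun j : J => b ∘ₗ p j) ψ} := by
  have h1 := many_places H h hnd Finset.univ κ φ (fun x hx _ => hφ x hx)
  have h2 : φ.compLinearMap (fun _ => PS p q Finset.univ) = φ := by
    ext v
    rw [MultilinearMap.compLinearMap_apply]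
    congr 1
    funext j
    rw [PS_apply, hone]
  rwa [h2] at h1

end

end

end Pool.Agent.W699.KCM
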