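import Pool.Agent.W699.KCM.EFFTb

/-!
Project KCM (helper516), part EFFT: the idempotents of the embeddings.
-/

set_option autoImplicit false
set_option linter.unusedSectionVars false

namespace Pool.Agent.W699.KCM

open Module TensorProduct

noncomputable section

variable {k E : Type} [Field k] [CharZero k] [Field E] [Algebra k E] [FiniteDimensional k E]
  [Algebra k ℂ] {V : Type} [AddCommGroup V] [Module ℂ V] [Module k V] [IsScalarTower k ℂ V]

variable (k E) in
/-- a basis -/
def eb : Basis (Fin (finrank k E)) k E := Module.finBasis k E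

variable (k E) in
/-- the dual basis for the trace form -/
def db : Basis (Fin (finrank k E)) k E :=
  LinearMap.BilinForm.dualBasis (Algebra.traceForm k E) (traceForm_nondegenerate k E) (eb k E)

lemma tr_db_eb (i j : Fin (finrank k E)) :
    Algebra.trace k E (db k E i * eb k E j) = if j = i then 1 else 0 :=
  LinearMap.BilinForm.apply_dualBasis_left (traceForm_nondegenerate k E) (eb k E) i j

lemma exp_eb (x : E) : ∑ i, Algebra.trace k E (db k E i * x) • eb k E i = x := by
  conv_rhs => rw [← (eb k E).sum_repr x]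
  refine Finset.sum_congr rfl fun i _ => ?_
  congr 1
  conv_lhs => rw [← (eb k E).sum_repr x]
  rw [Finset.mul_sum, map_sum, Finset.sum_eq_single i]
  · rw [mul_smul_comm, map_smul, tr_db_eb, if_pos rfl, smul_eq_mul, mul_one]
  · intro j _ hj
    rw [mul_smul_comm, map_smul, tr_db_eb, if_neg hj, smul_zero]
  · intro h
    exact absurd (Finset.mem_univ i) h

lemma exp_db (x : E) : ∑ i, Algebra.trace k E (x * eb k E i) • db k E i = x := by
  conv_rhs => rw [← (db k E).sum_repr x]
  refine Finset.sum_congr rfl fun i _ => ?_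
  congr 1
  exact (LinearMap.BilinForm.dualBasis_repr_apply (traceForm_nondegenerate k E) (eb k E) x i).symm

variable (A : E →ₐ[k] Module.End ℂ V)

/-- the idempotent of an embedding -/
def idp (τ : E →ₐ[k] ℂ) : Module.End ℂ V := ∑ i, τ (db k E i) • A (eb k E i)

lemma idp_apply (τ : E →ₐ[k] ℂ) (v : V) :
    idp A τ v = ∑ i, τ (db k E i) • A (eb k E i) v := by
  unfold idp
  rw [LinearMap.sum_apply]
  rfl

lemma ks (c : k) (f : Module.End ℂ V) : c • f = (algebraMap k ℂ c) • f := by
  rw [algebraMap_smul]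

lemma A_idp (a : E) (τ : E →ₐ[k] ℂ) (v : V) : A a (idp A τ v) = τ a • idp A τ v := by
  have h1 : ∀ x : E, A x = ∑ j, (algebraMap k ℂ (Algebra.trace k E (db k E j * x))) •
      A (eb k E j) := by
    intro x
    conv_lhs => rw [← exp_eb (k := k) x]
    rw [map_sum]
    refine Finset.sum_congr rfl fun j _ => ?_
    rw [map_smul, ks]
  have h2 : ∀ i, A a (A (eb k E i) v) = ∑ j, (algebraMap k ℂ (Algebra.trace k E
      (db k E j * (a * eb k E i)))) • A (eb k E j) v := by
    intro i
    have e : A a (A (eb k E i) v) = A (a * eb k E i) v := by rw [map_mul]; rfl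
    rw [e, h1, LinearMap.sum_apply]
    rfl
  rw [idp_apply, map_sum]
  simp only [map_smul, h2, Finset.smul_sum]
  rw [Finset.sum_comm]
  refine Finset.sum_congr rfl fun j _ => ?_
  simp only [smul_smul]
  rw [← Finset.sum_smul]
  congr 1
  have e : a * db k E j = ∑ i, Algebra.trace k E (db k E j * (a * eb k E i)) • db k E i := by
    conv_lhs => rw [← exp_db (k := k) (a * db k E j)]
    refine Finset.sum_congr rfl fun i _ => ?_
    congr 2
    ring
  rw [← map_mul, e, map_sum]
  refine Finset.sum_congr rfl fun i _ => ?_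
  rw [map_smul, Algebra.smul_def, mul_comm]

lemma A_comm (a c : E) (v : V) : A a (A c v) = A c (A a v) := by
  have e : A a * A c = A c * A a := by rw [← map_mul, ← map_mul, mul_comm]
  exact LinearMap.congr_fun e v

lemma idp_A (a : E) (τ : E →ₐ[k] ℂ) (v : V) : idp A τ (A a v) = A a (idp A τ v) := by
  rw [idp_apply, idp_apply, map_sum]
  refine Finset.sum_congr rfl fun i _ => ?_
  rw [A_comm, map_smul]

lemma idp_sum (v : V) : ∑ τ : E →ₐ[k] ℂ, idp A τ v = v := by
  simp only [idp_apply]
  rw [Finset.sum_comm]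
  simp only [← Finset.sum_smul]
  have h1 : ∀ i, ∑ τ : E →ₐ[k] ℂ, τ (db k E i) =
      algebraMap k ℂ (Algebra.trace k E (db k E i)) :=
    fun i => (trace_eq_sum_embeddings (E := ℂ)).symm
  simp only [h1]
  have h2 : (1 : E) = ∑ i, Algebra.trace k E (db k E i) • eb k E i := by
    conv_lhs => rw [← exp_eb (k := k) (1 : E)]
    simp only [mul_one]
  have h3 : A 1 v = v := by rw [map_one]; rfl
  conv_rhs => rw [← h3, h2, map_sum, LinearMap.sum_apply]
  refine Finset.sum_congr rfl fun i _ => ?_
  rw [map_smul, ks]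
  rfl

lemma idp_orth {σ τ : E →ₐ[k] ℂ} (h : σ ≠ τ) (v : V) : idp A σ (idp A τ v) = 0 := by
  obtain ⟨a, ha⟩ : ∃ a, σ a ≠ τ a := by
    by_contra hc
    push Not at hc
    exact h (AlgHom.ext hc)
  have h1 := A_idp A a σ (idp A τ v)
  have h2 : A a (idp A σ (idp A τ v)) = τ a • idp A σ (idp A τ v) := by
    rw [← idp_A, A_idp, map_smul]
  rw [h2, ← sub_eq_zero, ← sub_smul] at h1
  rcases smul_eq_zero.1 h1 with h3 | h3
  · exact absurd (sub_eq_zero.1 h3).symm ha
  · exact h3

lemma idp_idem [DecidableEq (E →ₐ[k] ℂ)] (σ τ : E →ₐ[k] ℂ) (v : V) :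
    idp A σ (idp A τ v) = if σ = τ then idp A σ v else 0 := by
  split_ifs with h
  · subst h
    conv_rhs => rw [← idp_sum A v, map_sum]
    rw [Finset.sum_eq_single σ]
    · intro τ _ hτ
      exact idp_orth A hτ.symm v
    · intro h
      exact absurd (Finset.mem_univ σ) h
  · exact idp_orth A h v

lemma A_eq (a : E) (v : V) : A a v = ∑ τ : E →ₐ[k] ℂ, τ a • idp A τ v := by
  conv_lhs => rw [← idp_sum A v, map_sum]
  exact Finset.sum_congr rfl fun τ _ => A_idp A a τ v

variable {A}

/-- the adjoint of the idempotent -/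
lemma idp_adj {B : V →ₗ[ℂ] V →ₗ[ℂ] ℂ} {ι : E →ₐ[k] E} (hι : ∀ e, ι (ι e) = e)
    (hB : ∀ a u v, B (A a u) v = B u (A (ι a) v)) (τ : E →ₐ[k] ℂ) (u v : V) :
    B (idp A τ u) v = B u (idp A (τ.comp ι) v) := by
  have key : ∀ (σ ρ : E →ₐ[k] ℂ), ρ ≠ σ.comp ι → ∀ u v, B (idp A σ u) (idp A ρ v) = 0 := by
    intro σ ρ h u v
    obtain ⟨a, ha⟩ : ∃ a, ρ a ≠ (σ.comp ι) a := by
      by_contra hc
      push Not at hc
      exact h (AlgHom.ext hc)
    have h1 := hB (ι a) (idp A σ u) (idp A ρ v)
    rw [hι, A_idp, A_idp, map_smul, map_smul, LinearMap.smul_apply, smul_eq_mul,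
      smul_eq_mul, ← sub_eq_zero, ← sub_mul] at h1
    rcases mul_eq_zero.1 h1 with h2 | h2
    · exact absurd (sub_eq_zero.1 h2).symm ha
    · exact h2
  have h1 : B (idp A τ u) v = B (idp A τ u) (idp A (τ.comp ι) v) := by
    conv_lhs => rw [← idp_sum A v, map_sum]
    rw [Finset.sum_eq_single (τ.comp ι)]
    · intro ρ _ hρ
      exact key τ ρ hρ u v
    · intro h
      exact absurd (Finset.mem_univ _) h
  have h2 : B u (idp A (τ.comp ι) v) = B (idp A τ u) (idp A (τ.comp ι) v) := by
    conv_lhs => rw [← idp_sum A u, map_sum, LinearMap.sum_apply]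
    rw [Finset.sum_eq_single τ]
    · intro σ _ hσ
      refine key σ (τ.comp ι) ?_ u v
      intro e
      apply hσ
      apply AlgHom.ext
      intro a
      have := AlgHom.congr_fun e (ι a)
      rw [AlgHom.comp_apply, AlgHom.comp_apply, hι] at this
      exact this.symm
    · intro h
      exact absurd (Finset.mem_univ _) h
  rw [h1, h2]

end

end Pool.Agent.W699.KCM
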